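import Pool.Agent.Work.MP_c6c039_lc.Geo

/-!
# Almost separable bicoloured point sets have simple spanning alternating paths

Let `P` be a balanced bicoloured point set of the plane in general position and let some line
missing `P` leave at most one blue point on its red side and at most one red point on its blue
side.  Then `P` has a simple spanning alternating path.

The path is built by peeling `P` from above along the bridges of the line (the hull edges which
cross it): from the current point one goes to the end point of the bridge of the other colour,
preferably to a point on the wrong side; if both end points have the wrong colour one first takes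
the hull neighbour of the misplaced one.
-/

set_option autoImplicit false

namespace Pool.Agent.Results.MP_c6c039_lc.AlmostSeparable

open Pool.Agent.Work.MP_c6c039_lc

/-- A balanced bicoloured point set in general position which some line separates up to at most
one misplaced point on each side has a simple spanning alternating path. -/
theorem result (R B : Finset (ℝ × ℝ)) (hdisj : Disjoint R B) (hbal : R.card = B.card)
    (hgp : ∀ p ∈ R ∪ B, ∀ q ∈ R ∪ B, ∀ r ∈ R ∪ B, p ≠ q → q ≠ r → p ≠ r →
      ¬ Collinear ℝ ({p, q, r} : Set (ℝ × ℝ)))
    (a b c : ℝ) (hab : a ≠ 0 ∨ b ≠ 0) (hline : ∀ p ∈ R ∪ B, a * p.1 + b * p.2 ≠ c)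
    (hB : (B.filter fun p => a * p.1 + b * p.2 < c).card ≤ 1)
    (hR : (R.filter fun p => c < a * p.1 + b * p.2).card ≤ 1) :
    ∃ l : List (ℝ × ℝ), IsPath R B l :=
  main R B hdisj hbal hgp a b c hab hline hB hR

end Pool.Agent.Results.MP_c6c039_lc.AlmostSeparable
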