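import Pool.Agent.Work.MP_c6c039_lc.CL.All

/-!
# Simple spanning alternating paths: a bounded number of convex layers

For every fixed `k` the existence of a simple spanning alternating path is decided in polynomial
time for the bicoloured point sets in general position with at most `k` convex layers (onion
layers): sets of which nothing is left after the vertices of the convex hull have been removed `k`
times.  `k = 1` is the theorem of Akiyama and Urrutia on convex position.

Idea.  Extend the path to a maximal set `E` of pairwise noncrossing segments.  Every point which is
not on the hull has a neighbour in `E` in a lower layer, so there is a route of at most `k` points to the
hull.  A segment of `E` and the routes of its two ends cut off a region; a triangle of `E` divides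
the region of one of its sides into the triangle and the regions of the two other sides.  For a region
the search stores the two routes, the places of their points in the path, and which of the parts
of the path between them are in the region.  Soundness: the search produces a list of positively oriented
empty triangles whose boundary is the hull, so almost every point is covered once and the sides do not
cross.  Completeness: closed chains of segments of `E` are boundaries of chains of triangles, and positivity
of the areas shows that the weights which occur are `0` and `1`.
-/

set_option autoImplicit false

namespace Pool.Agent.Results.MP_c6c039_lc.ConvexLayers

open Pool.Agent.Work.MP_c6c039_lc Pool.Agent.Work.MP_c6c039_lc.FP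
  Pool.Agent.Work.MP_c6c039_lc.CL N487b59b3

/-- For every `k` there is a polynomial-time computable function `f` such that for every instance `I`
(the list of the red points and the list of the blue points, with rational coordinates) in general
position: if `f I = true` then the set has a simple spanning alternating path; and if the set has at
most `k` convex layers (`Lyr k I`) and has such a path, then `f I = true`. -/
theorem result : ∀ k : ℕ, ∃ f : List (ℚ × ℚ) × List (ℚ × ℚ) → Bool, N68a2faeb.IsPolyTime f ∧
    ∀ I : List (ℚ × ℚ) × List (ℚ × ℚ), GenPos I →
      (f I = true → ∃ l : List (ℝ × ℝ), IsPath (pts I.1) (pts I.2) l) ∧
      (Lyr k I → (∃ l : List (ℝ × ℝ), IsPath (pts I.1) (pts I.2) l) → f I = true) :=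
  main_theorem

end Pool.Agent.Results.MP_c6c039_lc.ConvexLayers
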