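import Pool.Agent.Work.MP_c6c039_lc.FP.All

/-!
# Simple spanning alternating paths: few interior points

Deciding whether a bicoloured point set in general position has a simple spanning alternating path
is fixed parameter tractable in the number `k` of points which are not vertices of the convex hull:
one Turing machine decides it in time `2 ^ (c (k + 1) ^ 3) (L + 1) ^ c` for inputs of bit length `L`.
In particular the problem is polynomial for every fixed number of interior points; `k = 0` is the
theorem of Akiyama and Urrutia on convex position.

Idea.  Every initial part of a simple spanning path is such that the hull points it has visited
form an arc of the hull.  The later part of the path only has to know the arc, the last vertex,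
the visited interior points and, for each of the at most `2 k` edges with an interior end point, on
which side of the lines through two interior points its hull end and the arc lie.
-/

set_option autoImplicit false

namespace Pool.Agent.Results.MP_c6c039_lc.FewInteriorPoints

open Pool.Agent.Work.MP_c6c039_lc Pool.Agent.Work.MP_c6c039_lc.FP Turing N487b59b3

/-- There are a Turing machine `M` and a constant `c` such that for every instance `I` (the list of
the red points and the list of the blue points, with rational coordinates) in general position,
`M` started on the code of `I` answers whether the set has a simple spanning alternating path, in at
most `2 ^ (c * (inner I + 1) ^ 3) * (L + 1) ^ c` steps, where `L` is the length of the code and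
`inner I` is the number of points which are not vertices of the convex hull. -/
theorem result :
    ∃ (M : TM2ComputableAux Bool Bool) (c : ℕ), ∀ I : List (ℚ × ℚ) × List (ℚ × ℚ), GenPos I →
      ∀ b : Bool, (b = true ↔ ∃ l : List (ℝ × ℝ), IsPath (pts I.1) (pts I.2) l) →
        Nonempty (TM2OutputsInTime M.tm ((bitEncode I).map M.inputAlphabet.invFun)
          (some ((bitEncode b).map M.outputAlphabet.invFun))
          (2 ^ (c * (inner I + 1) ^ 3) * ((bitEncode I).length + 1) ^ c)) :=
  main_theorem

end Pool.Agent.Results.MP_c6c039_lc.FewInteriorPoints
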