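import Pool.Agent.Work.MP_c6c039_lc.HV.All3

/-!
# All points of one colour on the convex hull

Let `P = R ∪ B` be a balanced bicoloured point set of the plane in general position such that
every red point is a vertex of the convex hull of `P`.  If at most one run of consecutive blue hull
vertices has two or more points, then `P` has a simple spanning alternating path.  The same holds
with two long runs, if the line through the two red points which follow them (or the line through
the two red points which precede them) has on both sides at least as many blue as red points.

One long run: the red points are taken in their order on the hull.  Two consecutive red points with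
a single blue hull vertex between them are linked by it; two consecutive red points which are joined
by a hull edge `e` get a blue point `σ e` as a common neighbour, where the product of the distances
of `σ e` from the line of `e` is as small as possible: then the triangles over the hull edges
`e` meet only in their common vertices.  Two long runs: the set is cut along the line; both parts
have at most one long run, and paths which start in the same red point of the line.
-/

set_option autoImplicit false

namespace Pool.Agent.Results.MP_c6c039_lc.OneColourOnHull

open Pool.Agent.Work.MP_c6c039_lc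

/-- `c` lies strictly to the left of the directed line `a b`. -/
def Left (a b c : ℝ × ℝ) : Prop :=
  0 < (b.1 - a.1) * (c.2 - a.2) - (b.2 - a.2) * (c.1 - a.1)

/-- `a b` is a counterclockwise edge of the convex hull of `P` (in general position): all the other
points of `P` lie strictly to the left of the directed line `a b`. -/
def HullEdge (P : Finset (ℝ × ℝ)) (a b : ℝ × ℝ) : Prop :=
  a ∈ P ∧ b ∈ P ∧ a ≠ b ∧ ∀ c ∈ P, c ≠ a → c ≠ b → Left a b c

/-- `r` is a red point which follows (counterclockwise) a run of at least two consecutive blue hull
vertices: `b c` and `c r` are hull edges, `b` and `c` are blue and `r` is red. -/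
def FollowsLongRun (R B : Finset (ℝ × ℝ)) (r : ℝ × ℝ) : Prop :=
  r ∈ R ∧ ∃ b ∈ B, ∃ c ∈ B, HullEdge (R ∪ B) b c ∧ HullEdge (R ∪ B) c r

/-- `r` is a red point which precedes (counterclockwise) a run of at least two consecutive blue hull
vertices: `r b` and `b c` are hull edges, `b` and `c` are blue and `r` is red. -/
def PrecedesLongRun (R B : Finset (ℝ × ℝ)) (r : ℝ × ℝ) : Prop :=
  r ∈ R ∧ ∃ b ∈ B, ∃ c ∈ B, HullEdge (R ∪ B) r b ∧ HullEdge (R ∪ B) b c

open Classical in
/-- the number of points of `S` strictly to the left of the directed line `a b` -/
noncomputable def numLeft (S : Finset (ℝ × ℝ)) (a b : ℝ × ℝ) : ℕ := (S.filter (Left a b)).card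

/-- A balanced bicoloured point set in general position whose red points are vertices of the
convex hull has a simple spanning alternating path, if at most one red point follows a long blue
run, or if there are two red points `a`, `c` such that each open side of the line `a c` has at least
as many blue as red points, and such that only `a`, `c` follow a long blue run, or only `a`, `c`
precede a long blue run. -/
theorem result (R B : Finset (ℝ × ℝ)) (hdisj : Disjoint R B) (hbal : R.card = B.card)
    (hgp : ∀ p ∈ R ∪ B, ∀ q ∈ R ∪ B, ∀ r ∈ R ∪ B, p ≠ q → q ≠ r → p ≠ r →
      ¬ Collinear ℝ ({p, q, r} : Set (ℝ × ℝ)))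
    (hR : ∀ r ∈ R, r ∉ convexHull ℝ (((R ∪ B : Finset (ℝ × ℝ)) : Set (ℝ × ℝ)) \ {r}))
    (hB : (∀ r r' : ℝ × ℝ, FollowsLongRun R B r → FollowsLongRun R B r' → r = r') ∨
      ∃ a ∈ R, ∃ c ∈ R, a ≠ c ∧
        ((∀ r, FollowsLongRun R B r → r = a ∨ r = c) ∨
          (∀ r, PrecedesLongRun R B r → r = a ∨ r = c)) ∧
        numLeft R a c ≤ numLeft B a c ∧ numLeft R c a ≤ numLeft B c a) :
    ∃ l : List (ℝ × ℝ), IsPath R B l := by
  rcases hB with hB | ⟨a, ha, c, hc, hac, hF | hF, h1, h2⟩
  · refine HV.main R B
      { disj := hdisj
        gp := HV.pr_BR (R ∪ B) hgp
        ext := hR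
        one := ?_ } hbal
    intro b hb c hc r hr b' hb' c' hc' r' hr' e1 e2 e3 e4
    have hrr : r = r' := hB r r' ⟨hr, b, hb, c, hc, e1, e2⟩ ⟨hr', b', hb', c', hc', e3, e4⟩
    subst hrr
    exact HV.XDA.prev_unique e2 e4
  · exact HV.main2 R B a c
      { disj := hdisj
        gp := HV.pr_BR (R ∪ B) hgp
        ext := hR
        ma := ha
        mc := hc
        ne := hac
        pat := fun x hx y hy s hs e1 e2 => hF s ⟨hs, x, hx, y, hy, e1, e2⟩ } hbal h1 h2
  · exact HV.main3 R B a c
      { disj := hdisj
        gp := HV.pr_BR (R ∪ B) hgp
        ext := hR
        ma := ha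
        mc := hc
        ne := hac
        pat := fun x hx y hy s hs e1 e2 => hF s ⟨hs, x, hx, y, hy, e1, e2⟩ } hbal h1 h2

end Pool.Agent.Results.MP_c6c039_lc.OneColourOnHull
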